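import Mathlib

set_option autoImplicit false

/-!
# The restricted one-counter languages are not G-principal
-/

namespace Pool.Agent.Results.MP_773080_lc.RocNotGPrincipal

/-- A family of languages over finite alphabets: `F X L` says that the language `L` over the finite
alphabet `X` belongs to the family. -/
abbrev Family := ∀ (X : Type) [Finite X], Language X → Prop

/-! ### Inverse a-gsm mappings -/

/-- An a-gsm from `X` to `Y`: a deterministic finite-state machine which outputs a word over `Y`
(possibly the empty one) each time it reads a letter of `X`, with a set of accepting states. -/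
structure AGsm (X Y : Type) where
  /-- the states -/
  State : Type
  /-- there are finitely many states -/
  finState : Finite State
  /-- the initial state -/
  init : State
  /-- the next state -/
  next : State → X → State
  /-- the word which is output -/
  out : State → X → List Y
  /-- the accepting states -/
  accept : Set State

namespace AGsm

variable {X Y : Type}

/-- The state reached from the state `p` by reading the word. -/
def run (M : AGsm X Y) (p : M.State) : List X → M.State
  | [] => p
  | x :: u => M.run (M.next p x) u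

/-- The output produced from the state `p` by reading the word. -/
def output (M : AGsm X Y) (p : M.State) : List X → List Y
  | [] => []
  | x :: u => M.out p x ++ M.output (M.next p x) u

/-- The inverse image of the language `L`: the words `u` for which the run on `u` ends in an
accepting state and the output on `u` is in `L`. -/
def inv (M : AGsm X Y) (L : Language Y) : Language X :=
  {u | M.run M.init u ∈ M.accept ∧ M.output M.init u ∈ L}

end AGsm

/-- The family `F` is closed under inverse a-gsm mappings. -/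
def ClosedInvGsm (F : Family) : Prop :=
  ∀ (X Y : Type) [Finite X] [Finite Y] (M : AGsm X Y) (L : Language Y), F Y L → F X (M.inv L)

/-- `G(L)`: the smallest family which contains `L` and is closed under inverse a-gsm mappings. -/
def G {Y : Type} [Finite Y] (L : Language Y) : Family :=
  fun X _ N => ∀ F : Family, ClosedInvGsm F → F Y L → F X N

/-- The family `F` is G-principal: `F = G(L)` for some `L` in `F`. -/
def GPrincipal (F : Family) : Prop :=
  ∃ (Y : Type) (_ : Finite Y) (L : Language Y), F Y L ∧
    ∀ (X : Type) [Finite X] (N : Language X), F X N ↔ G L X N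

/-! ### Pushdown automata with a single pushdown symbol -/

/-- A nondeterministic pushdown automaton over `X` with a single pushdown symbol `Z`. A transition
`(q, o, r, j)` leads from the state `q` to the state `r`, reads the letter `x` if `o = some x` and
nothing if `o = none`, pops the topmost symbol `Z` and pushes `j` symbols `Z`. -/
structure OneCounter (X : Type) where
  /-- the states -/
  State : Type
  /-- there are finitely many states -/
  finState : Finite State
  /-- the initial state -/
  init : State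
  /-- the transitions -/
  trans : Set (State × Option X × State × ℕ)
  /-- there are finitely many transitions -/
  finTrans : trans.Finite
  /-- the final states -/
  accept : Set State

namespace OneCounter

variable {X : Type}

/-- `A.Run q h w r k`: some computation of `A` leads from the state `q` with pushdown content `Z^h`
to the state `r` with pushdown content `Z^k` and reads the word `w`. (A transition can be used only
if the pushdown is not empty.) -/
inductive Run (A : OneCounter X) : A.State → ℕ → List X → A.State → ℕ → Prop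
  | nil (q : A.State) (h : ℕ) : Run A q h [] q h
  | read {q p r : A.State} {x : X} {j h k : ℕ} {w : List X}
      (ht : (q, some x, p, j) ∈ A.trans) (hr : Run A p (h + j) w r k) :
      Run A q (h + 1) (x :: w) r k
  | eps {q p r : A.State} {j h k : ℕ} {w : List X}
      (ht : (q, none, p, j) ∈ A.trans) (hr : Run A p (h + j) w r k) :
      Run A q (h + 1) w r k

/-- The language accepted by `A`, by final state and empty pushdown. The initial pushdown content
is `Z`. -/
def language (A : OneCounter X) : Language X :=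
  {w | ∃ f ∈ A.accept, A.Run A.init 1 w f 0}

end OneCounter

/-- `Roc`, the family of the restricted one-counter languages: the languages accepted by
nondeterministic pushdown automata with a single pushdown symbol. -/
def Roc : Family := fun X _ L => ∃ A : OneCounter X, A.language = L

/-! ### Basic facts on computations -/

namespace OneCounter

variable {X : Type} {A : OneCounter X}

theorem Run.trans' {q r t : A.State} {h k l : ℕ} {u v : List X} (h1 : A.Run q h u r k)
    (h2 : A.Run r k v t l) : A.Run q h (u ++ v) t l := by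
  induction h1 with
  | nil q h => simpa using h2
  | read ht _ ih => exact Run.read ht (ih h2)
  | eps ht _ ih => exact Run.eps ht (ih h2)

theorem Run.shift {q r : A.State} {h k : ℕ} {u : List X} (h1 : A.Run q h u r k) (z : ℕ) :
    A.Run q (h + z) u r (k + z) := by
  induction h1 with
  | nil q h => exact Run.nil _ _
  | @read q p r x j h k w ht _ ih =>
    have e : h + 1 + z = h + z + 1 := by omega
    rw [e]
    refine Run.read ht ?_
    have e2 : h + z + j = h + j + z := by omega
    rw [e2]; exact ih
  | @eps q p r j h k w ht _ ih =>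
    have e : h + 1 + z = h + z + 1 := by omega
    rw [e]
    refine Run.eps ht ?_
    have e2 : h + z + j = h + j + z := by omega
    rw [e2]; exact ih

theorem Run.split {q t : A.State} {h l : ℕ} {w : List X} (h1 : A.Run q h w t l) :
    ∀ u v : List X, w = u ++ v → ∃ r k, A.Run q h u r k ∧ A.Run r k v t l := by
  induction h1 with
  | nil q h =>
    intro u v huv
    obtain ⟨rfl, rfl⟩ := List.append_eq_nil_iff.1 huv.symm
    exact ⟨q, h, Run.nil _ _, Run.nil _ _⟩
  | @read q p r x j h k w ht hr ih =>
    intro u v huv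
    cases u with
    | nil =>
      simp only [List.nil_append] at huv
      exact ⟨q, h + 1, Run.nil _ _, huv ▸ Run.read ht hr⟩
    | cons y u =>
      simp only [List.cons_append, List.cons.injEq] at huv
      obtain ⟨rfl, huv⟩ := huv
      obtain ⟨s, m, h2, h3⟩ := ih u v huv
      exact ⟨s, m, Run.read ht h2, h3⟩
  | @eps q p r j h k w ht hr ih =>
    intro u v huv
    obtain ⟨s, m, h2, h3⟩ := ih u v huv
    exact ⟨s, m, Run.eps ht h2, h3⟩

/-- Reading a nonempty word: spontaneous moves, then the first letter. -/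
theorem Run.cons_inv {q t : A.State} {h l : ℕ} {w : List X} (h1 : A.Run q h w t l) :
    ∀ (x : X) (v : List X), w = x :: v → ∃ p k p' j, A.Run q h [] p (k + 1) ∧
      (p, some x, p', j) ∈ A.trans ∧ A.Run p' (k + j) v t l := by
  induction h1 with
  | nil q h => intro x v h; simp at h
  | @read q p r x j h k w ht hr ih =>
    intro y v huv
    simp only [List.cons.injEq] at huv
    obtain ⟨rfl, rfl⟩ := huv
    exact ⟨q, h, p, j, Run.nil _ _, ht, hr⟩
  | @eps q p r j h k w ht hr ih =>
    intro y v huv
    obtain ⟨p1, k1, p2, j1, h2, h3, h4⟩ := ih y v huv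
    exact ⟨p1, k1, p2, j1, Run.eps ht h2, h3, h4⟩

end OneCounter

/-- The word `u ... u` (`n` times). -/
def rep {X : Type} (n : ℕ) (u : List X) : List X := (List.replicate n u).flatten

section rep

variable {X : Type}

@[simp] theorem rep_zero (u : List X) : rep 0 u = [] := rfl

theorem rep_succ (n : ℕ) (u : List X) : rep (n + 1) u = u ++ rep n u := by
  simp [rep, List.replicate_succ]

theorem rep_add (m n : ℕ) (u : List X) : rep (m + n) u = rep m u ++ rep n u := by
  unfold rep
  rw [← List.flatten_append, List.replicate_append_replicate]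

theorem rep_succ' (n : ℕ) (u : List X) : rep (n + 1) u = rep n u ++ u := by
  rw [rep_add]; simp [rep]

@[simp] theorem rep_one (u : List X) : rep 1 u = u := by simp [rep]

@[simp] theorem rep_nil (n : ℕ) : rep n ([] : List X) = [] := by simp [rep]

theorem rep_rep (m n : ℕ) (u : List X) : rep m (rep n u) = rep (m * n) u := by
  induction m with
  | zero => simp
  | succ m ih => rw [rep_succ, ih, Nat.succ_mul, Nat.add_comm, rep_add]

end rep

namespace OneCounter

variable {X : Type} {A : OneCounter X}

/-- Iterating a cycle which does not lower the counter. -/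
theorem Run.iter_up {q : A.State} {h g : ℕ} {u : List X} (h1 : A.Run q h u q (h + g)) (n : ℕ) :
    A.Run q h (rep n u) q (h + n * g) := by
  induction n with
  | zero => simpa using Run.nil q h
  | succ n ih =>
    rw [rep_succ']
    have := ih.trans' (h1.shift (n * g) : A.Run q (h + n * g) u q (h + g + n * g))
    have e : h + g + n * g = h + (n + 1) * g := by ring
    rwa [e] at this

/-- Iterating a cycle which does not raise the counter. -/
theorem Run.iter_down {q : A.State} {h g : ℕ} {u : List X} (h1 : A.Run q (h + g) u q h) (n : ℕ) :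
    A.Run q (h + n * g) (rep n u) q h := by
  induction n with
  | zero => simpa using Run.nil q h
  | succ n ih =>
    rw [rep_succ]
    have h2 := h1.shift (n * g)
    have e : h + g + n * g = h + (n + 1) * g := by ring
    rw [e] at h2
    exact h2.trans' ih

/-- Pumping an ascending and a later descending cycle. -/
theorem pump {s p r f : A.State} {k l g g' : ℕ} {w1 u w2 v w3 : List X} {h0 hf : ℕ}
    (h1 : A.Run s h0 w1 p k) (h2 : A.Run p k u p (k + g)) (h3 : A.Run p (k + g) w2 r (l + g'))
    (h4 : A.Run r (l + g') v r l) (h5 : A.Run r l w3 f hf) (n : ℕ) :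
    A.Run s h0 (w1 ++ (u ++ (rep (n * g') u ++ (w2 ++ (v ++ (rep (n * g) v ++ w3)))))) f hf := by
  have a := n * g * g'
  -- after `w1 u u^{n g'}` the counter is `k + g + n g' g`
  have h2' : A.Run p (k + g) (rep (n * g') u) p (k + g + n * g' * g) :=
    (h2.shift g : A.Run p (k + g) u p (k + g + g)).iter_up _
  have h3' := h3.shift (n * g' * g)
  -- `v^{1 + n g}`
  have h4' : A.Run r (l + n * g' * g + g') v r (l + n * g' * g) := by
    have := h4.shift (n * g' * g)
    have e : l + g' + n * g' * g = l + n * g' * g + g' := by ring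
    rwa [e] at this
  have h4'' : A.Run r (l + n * g * g') (rep (n * g) v) r l := h4.iter_down _
  have e1 : l + g' + n * g' * g = l + n * g' * g + g' := by ring
  have e2 : n * g * g' = n * g' * g := by ring
  rw [e1] at h3'
  rw [e2] at h4''
  exact h1.trans' (h2.trans' (h2'.trans' (h3'.trans' (h4'.trans' (h4''.trans' h5)))))

end OneCounter


/-! ### Sequences of states and heights -/

/-- If no later visit of a state is higher than an earlier one then the height grows only by a
bounded amount. -/
theorem seq_gain_aux {V : Type} [DecidableEq V] (J : ℕ) : ∀ (c : ℕ) (S : Finset V), S.card = c →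
    ∀ (n : ℕ) (v : ℕ → V) (h : ℕ → ℕ), (∀ k ≤ n, v k ∈ S) → (∀ k < n, h (k + 1) ≤ h k + J) →
    (∀ i j, i < j → j ≤ n → v i = v j → h j ≤ h i) → h n ≤ h 0 + c * J := by
  intro c
  induction c with
  | zero =>
    intro S hS n v h hv _ _
    have := hv 0 (Nat.zero_le _)
    rw [Finset.card_eq_zero.1 hS] at this
    simp at this
  | succ c ih =>
    intro S hS n v h hv hJ hno
    -- the last visit of `v 0`
    obtain ⟨j, ⟨hjn, hj⟩, hmax⟩ : ∃ j, (j ≤ n ∧ v j = v 0) ∧ ∀ k, k ≤ n → v k = v 0 → k ≤ j := by
      classical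
      refine ⟨Nat.findGreatest (fun k => v k = v 0) n, ⟨Nat.findGreatest_le n, ?_⟩, ?_⟩
      · exact Nat.findGreatest_spec (P := fun k => v k = v 0) (Nat.zero_le n) rfl
      · intro k hk hk'
        exact Nat.le_findGreatest hk hk'
    have hj0 : h j ≤ h 0 := by
      rcases Nat.eq_zero_or_pos j with rfl | hpos
      · exact le_rfl
      · exact hno 0 j hpos hjn hj.symm
    rcases Nat.lt_or_ge j n with hlt | hge
    · have h1 : h (j + 1) ≤ h j + J := hJ j hlt
      have h2 := ih (S.erase (v 0)) (by rw [Finset.card_erase_of_mem (hv 0 (Nat.zero_le _)), hS]; rfl)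
        (n - (j + 1)) (fun k => v (j + 1 + k)) (fun k => h (j + 1 + k)) (by
          intro k hk
          refine Finset.mem_erase.2 ⟨?_, hv _ (by omega)⟩
          intro he
          have := hmax (j + 1 + k) (by omega) he
          omega) (by
          intro k hk
          have := hJ (j + 1 + k) (by omega)
          simpa [Nat.add_assoc] using this) (by
          intro i k hik hk he
          exact hno _ _ (by omega) (by omega) he)
      have e : j + 1 + (n - (j + 1)) = n := by omega
      rw [e] at h2
      simp only [Nat.add_zero] at h2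
      have e2 : (c + 1) * J = c * J + J := by ring
      omega
    · have : j = n := by omega
      subst this
      omega

theorem seq_gain {V : Type} [Finite V] (J n : ℕ) (v : ℕ → V) (h : ℕ → ℕ)
    (hJ : ∀ k < n, h (k + 1) ≤ h k + J)
    (hno : ∀ i j, i < j → j ≤ n → v i = v j → h j ≤ h i) : h n ≤ h 0 + Nat.card V * J := by
  classical
  have := Fintype.ofFinite V
  rw [Nat.card_eq_fintype_card]
  exact seq_gain_aux J _ Finset.univ rfl n v h (fun _ _ => Finset.mem_univ _) hJ hno

/-- A long sequence has a repetition of a state with a large height, or after an exceptional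
position. -/
theorem exists_cycle {V : Type} [Finite V] (C n : ℕ) (v : ℕ → V) (h : ℕ → ℕ) (bad : ℕ → Prop)
    (h0 : h 0 ≤ C ∨ bad 0) (hJ : ∀ k < n, h (k + 1) ≤ h k + C ∨ bad (k + 1))
    (hn : Nat.card V + Nat.card V * (C + Nat.card V * C + 1) ≤ n) :
    ∃ i j, i < j ∧ j ≤ n ∧ v i = v j ∧ (h i ≤ h j ∨ ∃ k ≤ i, bad k) := by
  classical
  set s := Nat.card V with hs
  by_cases hb : ∃ k, bad k ∧ k + s ≤ n
  · obtain ⟨k, hk, hkn⟩ := hb
    have hcard : Nat.card V < Nat.card (Fin (s + 1)) := by simp [hs]
    obtain ⟨a, b, hab, he⟩ : ∃ a b : Fin (s + 1), a ≠ b ∧ v (k + a) = v (k + b) := by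
      by_contra hcon
      push Not at hcon
      have hinj : Function.Injective (fun a : Fin (s + 1) => v (k + a)) := by
        intro a b hab
        by_contra hne
        exact hcon a b hne hab
      exact absurd (Nat.card_le_card_of_injective _ hinj) (by omega)
    rcases lt_or_gt_of_ne hab with hlt | hlt
    · exact ⟨k + a, k + b, by have : (a : ℕ) < b := hlt
                              omega, by have := b.2; omega, he, Or.inr ⟨k, by omega, hk⟩⟩
    · exact ⟨k + b, k + a, by have : (b : ℕ) < a := hlt
                              omega, by have := a.2; omega, he.symm, Or.inr ⟨k, by omega, hk⟩⟩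
  · push Not at hb
    by_contra hcon
    push Not at hcon
    have hbad : ∀ k, k + s ≤ n → ¬ bad k := fun k hk hb' => by
      have := hb k hb'
      omega
    have h0' : h 0 ≤ C := h0.resolve_right (hbad 0 (by omega))
    have hlt : ∀ i j, i < j → j ≤ n → v i = v j → h j < h i := fun i j hij hj he =>
      (hcon i j hij hj he).1
    have hB : ∀ k, k ≤ n - s → h k ≤ C + s * C := by
      intro k hk
      have := seq_gain C k v h (fun l hl => (hJ l (by omega)).resolve_right
        (hbad (l + 1) (by omega))) (fun i j hij hj he => (hlt i j hij (by omega) he).le)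
      rw [← hs] at this
      omega
    have hinj : Function.Injective (fun a : Fin (n - s + 1) =>
        ((v a, ⟨h a, Nat.lt_succ_of_le (hB a (by omega))⟩) : V × Fin (C + s * C + 1))) := by
      intro a b hab
      simp only [Prod.mk.injEq, Fin.mk.injEq] at hab
      obtain ⟨h1, h2⟩ := hab
      by_contra hne
      rcases lt_or_gt_of_ne hne with hl | hl
      · have := hlt a b hl (by omega) h1
        omega
      · have := hlt b a hl (by omega) h1.symm
        omega
    have := Nat.card_le_card_of_injective _ hinj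
    rw [Nat.card_prod, Nat.card_eq_fintype_card, Nat.card_eq_fintype_card (α := Fin _),
      Fintype.card_fin, Fintype.card_fin, ← hs] at this
    omega


namespace OneCounter

variable {X : Type} {A : OneCounter X}

/-- Configurations at the ends of the factors `u` of `u ... u`. -/
theorem Run.rep_seq {u : List X} : ∀ (n : ℕ) {q r : A.State} {h k : ℕ}, A.Run q h (rep n u) r k →
    ∃ (v : ℕ → A.State) (a : ℕ → ℕ), v 0 = q ∧ a 0 = h ∧ A.Run (v n) (a n) [] r k ∧
      ∀ i < n, A.Run (v i) (a i) u (v (i + 1)) (a (i + 1)) := by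
  intro n
  induction n with
  | zero =>
    intro q r h k h1
    exact ⟨fun _ => q, fun _ => h, rfl, rfl, by simpa using h1, by simp⟩
  | succ n ih =>
    intro q r h k h1
    obtain ⟨p, l, h2, h3⟩ := h1.split u (rep n u) (rep_succ n u)
    obtain ⟨v, a, hv, ha, h4, h5⟩ := ih h3
    refine ⟨fun i => Nat.casesOn i q v, fun i => Nat.casesOn i h a, rfl, rfl, h4, ?_⟩
    intro i hi
    cases i with
    | zero => simpa [hv, ha] using h2
    | succ i => exact h5 i (by omega)

theorem chain_run {u : List X} {v : ℕ → A.State} {a : ℕ → ℕ} {n : ℕ}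
    (h : ∀ i < n, A.Run (v i) (a i) u (v (i + 1)) (a (i + 1))) :
    ∀ i d, i + d ≤ n → A.Run (v i) (a i) (rep d u) (v (i + d)) (a (i + d)) := by
  intro i d
  induction d with
  | zero => intro _; exact Run.nil _ _
  | succ d ih =>
    intro hd
    rw [rep_succ']
    exact (ih (by omega)).trans' (h (i + d) (by omega))

theorem Run.eps_seq {q r : A.State} {h k : ℕ} {w : List X} (h1 : A.Run q h w r k) (hw : w = []) :
    ∃ (n : ℕ) (v : ℕ → A.State) (a : ℕ → ℕ), v 0 = q ∧ a 0 = h ∧ v n = r ∧ a n = k ∧
      ∀ i < n, ∃ b j, a i = b + 1 ∧ a (i + 1) = b + j ∧ (v i, none, v (i + 1), j) ∈ A.trans := by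
  induction h1 with
  | nil q h => exact ⟨0, fun _ => q, fun _ => h, rfl, rfl, rfl, rfl, by simp⟩
  | read ht hr ih => simp at hw
  | @eps q p r j h k w ht hr ih =>
    obtain ⟨n, v, a, hv, ha, hn, hk, h5⟩ := ih hw
    refine ⟨n + 1, fun i => Nat.casesOn i q v, fun i => Nat.casesOn i (h + 1) a, rfl, rfl, hn, hk,
      ?_⟩
    intro i hi
    cases i with
    | zero => exact ⟨h, j, rfl, by simpa using ha, by simpa [hv] using ht⟩
    | succ i => exact h5 i (by omega)

/-- The computation contains a cycle of spontaneous moves which raises the counter. -/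
def PosEps (A : OneCounter X) (q : A.State) (h : ℕ) (w : List X) (r : A.State) (k : ℕ) : Prop :=
  ∃ w1 w2 p a b, w = w1 ++ w2 ∧ a < b ∧ A.Run q h w1 p a ∧ A.Run p a [] p b ∧ A.Run p b w2 r k

/-- The computation contains a cycle of spontaneous moves which lowers the counter. -/
def NegEps (A : OneCounter X) (q : A.State) (h : ℕ) (w : List X) (r : A.State) (k : ℕ) : Prop :=
  ∃ w1 w2 p a b, w = w1 ++ w2 ∧ b < a ∧ A.Run q h w1 p a ∧ A.Run p a [] p b ∧ A.Run p b w2 r k

theorem PosEps.trans' {q r t : A.State} {h k l : ℕ} {u v : List X} (h1 : A.PosEps q h u r k)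
    (h2 : A.Run r k v t l) : A.PosEps q h (u ++ v) t l := by
  obtain ⟨w1, w2, p, a, b, rfl, hab, h3, h4, h5⟩ := h1
  exact ⟨w1, w2 ++ v, p, a, b, by simp, hab, h3, h4, h5.trans' h2⟩

theorem PosEps.trans'' {q r t : A.State} {h k l : ℕ} {u v : List X} (h1 : A.Run q h u r k)
    (h2 : A.PosEps r k v t l) : A.PosEps q h (u ++ v) t l := by
  obtain ⟨w1, w2, p, a, b, rfl, hab, h3, h4, h5⟩ := h2
  exact ⟨u ++ w1, w2, p, a, b, by simp, hab, h1.trans' h3, h4, h5⟩

theorem NegEps.trans' {q r t : A.State} {h k l : ℕ} {u v : List X} (h1 : A.NegEps q h u r k)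
    (h2 : A.Run r k v t l) : A.NegEps q h (u ++ v) t l := by
  obtain ⟨w1, w2, p, a, b, rfl, hab, h3, h4, h5⟩ := h1
  exact ⟨w1, w2 ++ v, p, a, b, by simp, hab, h3, h4, h5.trans' h2⟩

theorem NegEps.trans'' {q r t : A.State} {h k l : ℕ} {u v : List X} (h1 : A.Run q h u r k)
    (h2 : A.NegEps r k v t l) : A.NegEps q h (u ++ v) t l := by
  obtain ⟨w1, w2, p, a, b, rfl, hab, h3, h4, h5⟩ := h2
  exact ⟨u ++ w1, w2, p, a, b, by simp, hab, h1.trans' h3, h4, h5⟩

theorem exists_push_bound (A : OneCounter X) : ∃ J, ∀ t ∈ A.trans, t.2.2.2 ≤ J := by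
  obtain ⟨J, hJ⟩ := (A.finTrans.image (fun t => t.2.2.2)).bddAbove
  exact ⟨J, fun t ht => hJ ⟨t, ht, rfl⟩⟩

theorem gain_eps (A : OneCounter X) : ∃ C, ∀ q h r k, A.Run q h [] r k →
    k ≤ h + C ∨ A.PosEps q h [] r k := by
  obtain ⟨J, hJ⟩ := A.exists_push_bound
  have := A.finState
  refine ⟨Nat.card A.State * J, fun q h r k h1 => ?_⟩
  obtain ⟨n, v, a, rfl, rfl, rfl, rfl, h2⟩ := h1.eps_seq rfl
  have hrun : ∀ i < n, A.Run (v i) (a i) [] (v (i + 1)) (a (i + 1)) := by
    intro i hi
    obtain ⟨b, j, e1, e2, ht⟩ := h2 i hi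
    rw [e1, e2]
    exact Run.eps ht (Run.nil _ _)
  by_cases hc : ∃ i j, i < j ∧ j ≤ n ∧ v i = v j ∧ a i < a j
  · obtain ⟨i, j, hij, hj, he, hlt⟩ := hc
    right
    have r1 := chain_run hrun 0 i (by omega)
    have r2 := chain_run hrun i (j - i) (by omega)
    have r3 := chain_run hrun j (n - j) (by omega)
    rw [rep_nil] at r1 r2 r3
    rw [show i + (j - i) = j by omega] at r2
    rw [show j + (n - j) = n by omega] at r3
    rw [show 0 + i = i by omega] at r1
    refine ⟨[], [], v i, a i, a j, rfl, hlt, r1, ?_, ?_⟩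
    · rw [← he] at r2; exact r2
    · rw [← he] at r3; exact r3
  · push Not at hc
    left
    refine seq_gain J n v a (fun i hi => ?_) (fun i j hij hj he => hc i j hij hj he)
    obtain ⟨b, j, e1, e2, ht⟩ := h2 i hi
    have := hJ _ ht
    simp only at this
    omega

theorem drop_eps (A : OneCounter X) : ∃ C, ∀ q h r k, A.Run q h [] r k →
    h ≤ k + C ∨ A.NegEps q h [] r k := by
  have := A.finState
  refine ⟨Nat.card A.State * 1, fun q h r k h1 => ?_⟩
  obtain ⟨n, v, a, rfl, rfl, rfl, rfl, h2⟩ := h1.eps_seq rfl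
  have hrun : ∀ i < n, A.Run (v i) (a i) [] (v (i + 1)) (a (i + 1)) := by
    intro i hi
    obtain ⟨b, j, e1, e2, ht⟩ := h2 i hi
    rw [e1, e2]
    exact Run.eps ht (Run.nil _ _)
  by_cases hc : ∃ i j, i < j ∧ j ≤ n ∧ v i = v j ∧ a j < a i
  · obtain ⟨i, j, hij, hj, he, hlt⟩ := hc
    right
    have r1 := chain_run hrun 0 i (by omega)
    have r2 := chain_run hrun i (j - i) (by omega)
    have r3 := chain_run hrun j (n - j) (by omega)
    rw [rep_nil] at r1 r2 r3
    rw [show i + (j - i) = j by omega] at r2
    rw [show j + (n - j) = n by omega] at r3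
    rw [show 0 + i = i by omega] at r1
    refine ⟨[], [], v i, a i, a j, rfl, hlt, r1, ?_, ?_⟩
    · rw [← he] at r2; exact r2
    · rw [← he] at r3; exact r3
  · push Not at hc
    left
    have h3 := seq_gain 1 n (fun i => v (n - i)) (fun i => a (n - i)) (fun i hi => ?_)
      (fun i j hij hj he => ?_)
    · simpa using h3
    · obtain ⟨b, j, e1, e2, ht⟩ := h2 (n - (i + 1)) (by omega)
      rw [show n - (i + 1) + 1 = n - i by omega] at e2
      omega
    · have h4 := hc (n - j) (n - i) (by omega) (by omega) he.symm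
      exact h4

theorem gain_word (A : OneCounter X) (w : List X) : ∃ C, ∀ q h r k, A.Run q h w r k →
    k ≤ h + C ∨ A.PosEps q h w r k := by
  induction w with
  | nil => exact A.gain_eps
  | cons x w ih =>
    obtain ⟨C1, h1⟩ := A.gain_eps
    obtain ⟨C2, h2⟩ := ih
    obtain ⟨J, hJ⟩ := A.exists_push_bound
    refine ⟨C1 + J + C2, fun q h r k hr => ?_⟩
    obtain ⟨p, l, p', j, r1, ht, r2⟩ := hr.cons_inv x w rfl
    have r3 : A.Run p (l + 1) (x :: w) r k := Run.read ht r2
    have r4 : A.Run p (l + 1) [x] p' (l + j) := Run.read ht (Run.nil _ _)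
    rcases h1 _ _ _ _ r1 with h3 | h3
    · rcases h2 _ _ _ _ r2 with h4 | h4
      · left
        have := hJ _ ht
        simp only at this
        omega
      · right
        have := PosEps.trans'' (r1.trans' r4) h4
        simpa using this
    · right
      simpa using h3.trans' r3

theorem drop_word (A : OneCounter X) (w : List X) : ∃ C, ∀ q h r k, A.Run q h w r k →
    h ≤ k + C ∨ A.NegEps q h w r k := by
  induction w with
  | nil => exact A.drop_eps
  | cons x w ih =>
    obtain ⟨C1, h1⟩ := A.drop_eps
    obtain ⟨C2, h2⟩ := ih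
    refine ⟨C1 + 1 + C2, fun q h r k hr => ?_⟩
    obtain ⟨p, l, p', j, r1, ht, r2⟩ := hr.cons_inv x w rfl
    have r3 : A.Run p (l + 1) (x :: w) r k := Run.read ht r2
    have r4 : A.Run p (l + 1) [x] p' (l + j) := Run.read ht (Run.nil _ _)
    rcases h1 _ _ _ _ r1 with h3 | h3
    · rcases h2 _ _ _ _ r2 with h4 | h4
      · left
        omega
      · right
        have := NegEps.trans'' (r1.trans' r4) h4
        simpa using this
    · right
      simpa using h3.trans' r3

end OneCounter


/-! ### Unions of lines -/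

theorem rep_append (a b : ℕ) {X : Type} (u w : List X) :
    rep a u ++ (rep b u ++ w) = rep (a + b) u ++ w := by
  rw [rep_add, List.append_assoc]

/-- The pigeonhole principle for finitely many slopes. -/
theorem lin {m P Q R S : ℕ}
    (h : ∀ n : ℕ, ∃ j, 1 ≤ j ∧ j ≤ m ∧ P + n * Q = j * (R + n * S)) :
    ∃ j, Q = j * S ∧ P = j * R := by
  choose j h1 h2 h3 using h
  obtain ⟨a, b, hab, he⟩ := Finite.exists_ne_map_eq_of_infinite
    (fun n => (⟨j n, Nat.lt_succ_of_le (h2 n)⟩ : Fin (m + 1)))
  simp only [Fin.mk.injEq] at he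
  wlog hlt : a < b generalizing a b
  · exact this b a hab.symm he.symm (by omega)
  obtain ⟨c, rfl⟩ : ∃ c, b = a + c := ⟨b - a, by omega⟩
  have hc : 0 < c := by omega
  have e1 := h3 a
  have e2 := h3 (a + c)
  rw [← he] at e2
  have e3 : c * Q = c * (j a * S) := by
    have x1 : P + (a + c) * Q = P + a * Q + c * Q := by ring
    have x2 : j a * (R + (a + c) * S) = j a * (R + a * S) + c * (j a * S) := by ring
    rw [x1, x2, e1] at e2
    omega
  have e4 : Q = j a * S := Nat.eq_of_mul_eq_mul_left hc e3
  refine ⟨j a, e4, ?_⟩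
  have x3 : j a * (R + a * S) = j a * R + a * (j a * S) := by ring
  rw [x3, ← e4] at e1
  omega

section main

variable {Y : Type} {A : OneCounter Y} {α0 α γ0 γ : List Y} {m : ℕ}

open OneCounter

theorem decomp {x y : ℕ} (h : α0 ++ (rep x α ++ (γ0 ++ rep y γ)) ∈ A.language) :
    ∃ f ∈ A.accept, ∃ (v : ℕ → A.State) (a : ℕ → ℕ) (v' : ℕ → A.State) (a' : ℕ → ℕ),
      A.Run A.init 1 α0 (v 0) (a 0) ∧ (∀ i < x, A.Run (v i) (a i) α (v (i + 1)) (a (i + 1))) ∧
      A.Run (v x) (a x) γ0 (v' 0) (a' 0) ∧
      (∀ i < y, A.Run (v' i) (a' i) γ (v' (i + 1)) (a' (i + 1))) ∧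
      A.Run (v' y) (a' y) [] f 0 := by
  obtain ⟨f, hf, h1⟩ := h
  obtain ⟨p0, k0, h2, h3⟩ := h1.split _ _ rfl
  obtain ⟨p1, k1, h4, h5⟩ := h3.split _ _ rfl
  obtain ⟨p2, k2, h6, h7⟩ := h5.split _ _ rfl
  obtain ⟨v, a, rfl, rfl, h8, h9⟩ := Run.rep_seq x h4
  obtain ⟨v', a', rfl, rfl, h10, h11⟩ := Run.rep_seq y h7
  exact ⟨f, hf, v, a, v', a', h2, h9, by simpa using h8.trans' h6, h11, h10⟩

/-- The condition on the automaton: the words accepted form a union of lines. -/
def Lines (A : OneCounter Y) (α0 α γ0 γ : List Y) (m : ℕ) : Prop :=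
  ∀ x y, α0 ++ (rep x α ++ (γ0 ++ rep y γ)) ∈ A.language ↔
    ∃ i, 1 ≤ i ∧ i ≤ m ∧ y + 1 = i * (x + 1)

theorem Lines.no_x (hT : Lines A α0 α γ0 γ m) {x y d : ℕ} (hd : 0 < d)
    (h : ∀ n, α0 ++ (rep (x + n * d) α ++ (γ0 ++ rep y γ)) ∈ A.language) : False := by
  obtain ⟨i, h1, _, h3⟩ := (hT _ _).1 (h (y + 1))
  have h4 : y + 1 ≤ (y + 1) * d := Nat.le_mul_of_pos_right _ hd
  have h5 : x + (y + 1) * d + 1 ≤ i * (x + (y + 1) * d + 1) := Nat.le_mul_of_pos_left _ h1
  omega

theorem Lines.no_y (hT : Lines A α0 α γ0 γ m) {x y e : ℕ} (he : 0 < e)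
    (h : ∀ n, α0 ++ (rep x α ++ (γ0 ++ rep (y + n * e) γ)) ∈ A.language) : False := by
  obtain ⟨i, _, h2, h3⟩ := (hT _ _).1 (h (m * (x + 1)))
  have h4 : m * (x + 1) ≤ m * (x + 1) * e := Nat.le_mul_of_pos_right _ he
  have h5 : i * (x + 1) ≤ m * (x + 1) := Nat.mul_le_mul_right _ h2
  omega

theorem a_cycle (hT : Lines A α0 α γ0 γ m) : ∃ X0, ∀ x y, X0 ≤ x →
    ∀ f ∈ A.accept, ∀ (v : ℕ → A.State) (a : ℕ → ℕ),
      A.Run A.init 1 α0 (v 0) (a 0) → (∀ i < x, A.Run (v i) (a i) α (v (i + 1)) (a (i + 1))) →
      A.Run (v x) (a x) (γ0 ++ rep y γ) f 0 →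
      ∃ i j, i < j ∧ j ≤ x ∧ v i = v j ∧ a i < a j := by
  have := A.finState
  obtain ⟨C1, hC1⟩ := A.gain_word α0
  obtain ⟨C2, hC2⟩ := A.gain_word α
  refine ⟨Nat.card A.State + Nat.card A.State * ((1 + C1 + C2) +
    Nat.card A.State * (1 + C1 + C2) + 1), fun x y hx f hf v a r0 ra rc => ?_⟩
  obtain ⟨i, j, hij, hj, he, h⟩ := exists_cycle (1 + C1 + C2) x v a
    (fun k => A.PosEps A.init 1 (α0 ++ rep k α) (v k) (a k)) (by
      rcases hC1 _ _ _ _ r0 with h | h
      · left; omega
      · right; simpa using h) (by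
      intro k hk
      rcases hC2 _ _ _ _ (ra k hk) with h | h
      · left; omega
      · right
        have h2 := chain_run ra 0 k (by omega)
        rw [Nat.zero_add] at h2
        have h3 := PosEps.trans'' (r0.trans' h2) h
        rw [rep_succ']
        simpa using h3) hx
  have r1 := chain_run ra 0 i (by omega)
  have r2 := chain_run ra i (j - i) (by omega)
  have r3 := chain_run ra j (x - j) (by omega)
  rw [show i + (j - i) = j by omega] at r2
  rw [show j + (x - j) = x by omega] at r3
  rw [show 0 + i = i by omega] at r1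
  rcases Nat.lt_trichotomy (a i) (a j) with hlt | heq | hgt
  · exact ⟨i, j, hij, hj, he, hlt⟩
  · exfalso
    refine hT.no_x (x := x) (y := y) (d := j - i) (by omega) (fun n => ⟨f, hf, ?_⟩)
    rw [← he, ← heq] at r2 r3
    have r4 := r2.iter_up (g := 0) n
    simp only [Nat.mul_zero, Nat.add_zero] at r4
    have r5 := (r0.trans' r1).trans' (r4.trans' (r2.trans' (r3.trans' rc)))
    have e : α0 ++ rep i α ++ (rep n (rep (j - i) α) ++ (rep (j - i) α ++ (rep (x - j) α ++
        (γ0 ++ rep y γ)))) = α0 ++ (rep (x + n * (j - i)) α ++ (γ0 ++ rep y γ)) := by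
      rw [rep_rep, rep_append, rep_append, List.append_assoc, rep_append]
      congr 3
      omega
    rwa [e] at r5
  · exfalso
    have hbad : A.PosEps A.init 1 (α0 ++ rep i α) (v i) (a i) := by
      rcases h with h | ⟨k, hk, hb⟩
      · omega
      · have r4 := chain_run ra k (i - k) (by omega)
        rw [show k + (i - k) = i by omega] at r4
        have := hb.trans' r4
        rw [List.append_assoc, ← rep_add, show k + (i - k) = i by omega] at this
        exact this
    obtain ⟨w1, w2, p, b1, b2, hw, hb, h1, h2, h3⟩ := hbad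
    obtain ⟨g, rfl⟩ : ∃ g, b2 = b1 + g := ⟨b2 - b1, by omega⟩
    obtain ⟨g', hg'⟩ : ∃ g', a i = a j + g' := ⟨a i - a j, by omega⟩
    rw [← he] at r2 r3
    rw [hg'] at r2 h3
    refine hT.no_x (x := x) (y := y) (d := g * (j - i))
      (Nat.mul_pos (by omega) (by omega)) (fun n => ⟨f, hf, ?_⟩)
    have r5 := pump h1 h2 h3 r2 (r3.trans' rc) n
    have e : w1 ++ ([] ++ (rep (n * g') ([] : List Y) ++ (w2 ++ (rep (j - i) α ++
        (rep (n * g) (rep (j - i) α) ++ (rep (x - j) α ++ (γ0 ++ rep y γ))))))) =
        α0 ++ (rep (x + n * (g * (j - i))) α ++ (γ0 ++ rep y γ)) := by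
      rw [rep_nil, rep_rep, rep_append, rep_append, List.nil_append, List.nil_append,
        ← List.append_assoc, ← hw, List.append_assoc, rep_append]
      congr 3
      rw [Nat.mul_assoc]
      omega
    rwa [e] at r5

theorem c_cycle (hT : Lines A α0 α γ0 γ m) : ∃ Y0, ∀ x y, Y0 ≤ y →
    ∀ f ∈ A.accept, ∀ (v : ℕ → A.State) (a : ℕ → ℕ),
      A.Run A.init 1 (α0 ++ (rep x α ++ γ0)) (v 0) (a 0) →
      (∀ i < y, A.Run (v i) (a i) γ (v (i + 1)) (a (i + 1))) →
      A.Run (v y) (a y) [] f 0 →
      ∃ i j, i < j ∧ j ≤ y ∧ v i = v j ∧ a j < a i := by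
  have := A.finState
  obtain ⟨C1, hC1⟩ := A.drop_word []
  obtain ⟨C2, hC2⟩ := A.drop_word γ
  refine ⟨Nat.card A.State + Nat.card A.State * ((C1 + C2) +
    Nat.card A.State * (C1 + C2) + 1), fun x y hx f hf v a r0 rc rf => ?_⟩
  obtain ⟨i, j, hij, hj, he, h⟩ := exists_cycle (C1 + C2) y (fun k => v (y - k))
    (fun k => a (y - k))
    (fun k => A.NegEps (v (y - k)) (a (y - k)) (rep k γ) f 0) (by
      rcases hC1 _ _ _ _ rf with h | h
      · left; simp only [Nat.sub_zero]; omega
      · right; simpa using h) (by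
      intro k hk
      have r1 := rc (y - (k + 1)) (by omega)
      rw [show y - (k + 1) + 1 = y - k by omega] at r1
      rcases hC2 _ _ _ _ r1 with h | h
      · left; omega
      · right
        have h2 := chain_run rc (y - k) k (by omega)
        rw [show y - k + k = y by omega] at h2
        have h3 := NegEps.trans' h (h2.trans' rf)
        rw [rep_succ]
        simpa using h3) hx
  -- the indices in the original order
  obtain ⟨i', hi'⟩ : ∃ i', i' = y - j := ⟨_, rfl⟩
  obtain ⟨j', hj'⟩ : ∃ j', j' = y - i := ⟨_, rfl⟩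
  have hij' : i' < j' := by omega
  have he' : v i' = v j' := by rw [hi', hj']; exact he.symm
  have r1 := chain_run rc 0 i' (by omega)
  have r2 := chain_run rc i' (j' - i') (by omega)
  have r3 := chain_run rc j' (y - j') (by omega)
  rw [show i' + (j' - i') = j' by omega] at r2
  rw [show j' + (y - j') = y by omega] at r3
  rw [show 0 + i' = i' by omega] at r1
  rcases Nat.lt_trichotomy (a j') (a i') with hlt | heq | hgt
  · exact ⟨i', j', hij', by omega, he', hlt⟩
  · exfalso
    refine hT.no_y (x := x) (y := y) (e := j' - i') (by omega) (fun n => ⟨f, hf, ?_⟩)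
    rw [← he', heq] at r2 r3
    have r4 := r2.iter_up (g := 0) n
    simp only [Nat.mul_zero, Nat.add_zero] at r4
    have r5 := (r0.trans' r1).trans' (r4.trans' (r2.trans' (r3.trans' rf)))
    have e : α0 ++ (rep x α ++ γ0) ++ rep i' γ ++ (rep n (rep (j' - i') γ) ++
        (rep (j' - i') γ ++ (rep (y - j') γ ++ []))) =
        α0 ++ (rep x α ++ (γ0 ++ rep (y + n * (j' - i')) γ)) := by
      simp only [List.append_nil, List.append_assoc, rep_rep, ← rep_add]
      congr 4
      omega
    rwa [e] at r5
  · exfalso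
    have hbad : A.NegEps (v j') (a j') (rep (y - j') γ) f 0 := by
      rcases h with h | ⟨k, hk, hb⟩
      · rw [← hi', ← hj'] at h
        omega
      · have r4 := chain_run rc j' (y - k - j') (by omega)
        rw [show j' + (y - k - j') = y - k by omega] at r4
        have := NegEps.trans'' r4 hb
        rw [← rep_add, show y - k - j' + k = y - j' by omega] at this
        exact this
    obtain ⟨w1, w2, p, b1, b2, hw, hb, h1, h2, h3⟩ := hbad
    obtain ⟨g', rfl⟩ : ∃ g', b1 = b2 + g' := ⟨b1 - b2, by omega⟩
    obtain ⟨g, hg⟩ : ∃ g, a j' = a i' + g := ⟨a j' - a i', by omega⟩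
    rw [← he'] at r2 h1
    rw [hg] at r2 h1
    refine hT.no_y (x := x) (y := y) (e := g' * (j' - i'))
      (Nat.mul_pos (by omega) (by omega)) (fun n => ⟨f, hf, ?_⟩)
    have r5 := pump (r0.trans' r1) r2 h1 h2 h3 n
    have e : α0 ++ (rep x α ++ γ0) ++ rep i' γ ++ (rep (j' - i') γ ++
        (rep (n * g') (rep (j' - i') γ) ++ (w1 ++ ([] ++ (rep (n * g) ([] : List Y) ++ w2))))) =
        α0 ++ (rep x α ++ (γ0 ++ rep (y + n * (g' * (j' - i'))) γ)) := by
      rw [rep_nil, List.nil_append, List.nil_append, ← hw]
      simp only [List.append_assoc, rep_rep, ← rep_add]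
      congr 4
      rw [Nat.mul_assoc]
      omega
    rwa [e] at r5

/-- Accepting computation with an ascending and a descending cycle, on a line of slope `i`. -/
def Data (A : OneCounter Y) (α0 α γ0 γ : List Y) (i : ℕ) (p r : A.State) : Prop :=
  ∃ k g d l g' e x1 x2 y1 y2 f, 0 < g ∧ 0 < g' ∧ 0 < d ∧ 0 < e ∧ f ∈ A.accept ∧
    A.Run A.init 1 (α0 ++ rep x1 α) p k ∧ A.Run p k (rep d α) p (k + g) ∧
    A.Run p (k + g) (rep x2 α ++ (γ0 ++ rep y1 γ)) r (l + g') ∧
    A.Run r (l + g') (rep e γ) r l ∧ A.Run r l (rep y2 γ) f 0 ∧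
    y1 + e + y2 + 1 = i * (x1 + d + x2 + 1)

theorem exists_data (hT : Lines A α0 α γ0 γ m) {i : ℕ} (hi : 1 ≤ i) (him : i ≤ m) :
    ∃ p r, Data A α0 α γ0 γ i p r := by
  obtain ⟨X0, hX0⟩ := a_cycle hT
  obtain ⟨Y0, hY0⟩ := c_cycle hT
  obtain ⟨x, hx⟩ : ∃ x, x = X0 + Y0 := ⟨_, rfl⟩
  obtain ⟨y, hy⟩ : ∃ y, y + 1 = i * (x + 1) :=
    ⟨i * (x + 1) - 1, by
      have : 0 < i * (x + 1) := Nat.mul_pos hi (by omega)
      omega⟩
  have hxy : x ≤ y := by
    have : 1 * (x + 1) ≤ i * (x + 1) := Nat.mul_le_mul_right _ hi
    omega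
  obtain ⟨f, hf, v, a, v', a', r0, ra, r1, rc, rf⟩ := decomp ((hT x y).2 ⟨i, hi, him, hy⟩)
  have ry := chain_run rc 0 y (by omega)
  rw [Nat.zero_add] at ry
  have rx := chain_run ra 0 x (by omega)
  rw [Nat.zero_add] at rx
  obtain ⟨i1, j1, h1, h2, h3, h4⟩ := hX0 x y (by omega) f hf v a r0 ra
    (r1.trans' (by simpa using ry.trans' rf))
  obtain ⟨i2, j2, h5, h6, h7, h8⟩ := hY0 x y (by omega) f hf v' a' (by
    have := r0.trans' (rx.trans' r1)
    simpa using this) rc rf
  have s1 := chain_run ra 0 i1 (by omega)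
  have s2 := chain_run ra i1 (j1 - i1) (by omega)
  have s3 := chain_run ra j1 (x - j1) (by omega)
  rw [show i1 + (j1 - i1) = j1 by omega] at s2
  rw [show j1 + (x - j1) = x by omega] at s3
  rw [show 0 + i1 = i1 by omega] at s1
  have t1 := chain_run rc 0 i2 (by omega)
  have t2 := chain_run rc i2 (j2 - i2) (by omega)
  have t3 := chain_run rc j2 (y - j2) (by omega)
  rw [show i2 + (j2 - i2) = j2 by omega] at t2
  rw [show j2 + (y - j2) = y by omega] at t3
  rw [show 0 + i2 = i2 by omega] at t1
  obtain ⟨g, hg⟩ : ∃ g, a j1 = a i1 + g := ⟨a j1 - a i1, by omega⟩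
  obtain ⟨g', hg'⟩ : ∃ g', a' i2 = a' j2 + g' := ⟨a' i2 - a' j2, by omega⟩
  rw [← h3, hg] at s2 s3
  rw [hg'] at t1 t2
  rw [← h7] at t2 t3
  refine ⟨v i1, v' i2, a i1, g, j1 - i1, a' j2, g', j2 - i2, i1, x - j1, i2, y - j2, f,
    by omega, by omega, by omega, by omega, hf, r0.trans' s1, s2, s3.trans' (r1.trans' t1), t2,
    by simpa using t3.trans' rf, ?_⟩
  have e1 : i2 + (j2 - i2) + (y - j2) + 1 = y + 1 := by omega
  have e2 : i1 + (j1 - i1) + (x - j1) + 1 = x + 1 := by omega
  rw [e1, e2, hy]


theorem Data.slope (hT : Lines A α0 α γ0 γ m) {i : ℕ} {p r : A.State}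
    {k g d l g' e x1 x2 y1 y2 : ℕ} {f : A.State} (hf : f ∈ A.accept)
    (h1 : A.Run A.init 1 (α0 ++ rep x1 α) p k) (h2 : A.Run p k (rep d α) p (k + g))
    (h3 : A.Run p (k + g) (rep x2 α ++ (γ0 ++ rep y1 γ)) r (l + g'))
    (h4 : A.Run r (l + g') (rep e γ) r l) (h5 : A.Run r l (rep y2 γ) f 0)
    (h6 : y1 + e + y2 + 1 = i * (x1 + d + x2 + 1)) : g * e = i * (g' * d) := by
  obtain ⟨j, hj1, hj2⟩ := lin (m := m) (P := i * (x1 + d + x2 + 1)) (Q := g * e)
    (R := x1 + d + x2 + 1) (S := g' * d) (by
    intro n
    have r5 := pump h1 h2 h3 h4 h5 n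
    have e1 : α0 ++ rep x1 α ++ (rep d α ++ (rep (n * g') (rep d α) ++ (rep x2 α ++
        (γ0 ++ rep y1 γ) ++ (rep e γ ++ (rep (n * g) (rep e γ) ++ rep y2 γ))))) =
        α0 ++ (rep (x1 + d + x2 + n * (g' * d)) α ++
          (γ0 ++ rep (y1 + e + y2 + n * (g * e)) γ)) := by
      have a1 : x1 + d + x2 + n * (g' * d) = x1 + (d + (n * g' * d + x2)) := by ring
      have a2 : y1 + e + y2 + n * (g * e) = y1 + (e + (n * g * e + y2)) := by ring
      rw [a1, a2]
      simp only [rep_add, rep_rep, List.append_assoc]
    rw [e1] at r5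
    obtain ⟨j, hj1, hj2, hj3⟩ := (hT _ _).1 ⟨f, hf, r5⟩
    refine ⟨j, hj1, hj2, ?_⟩
    rw [← h6]
    have a3 : x1 + d + x2 + n * (g' * d) + 1 = x1 + d + x2 + 1 + n * (g' * d) := by ring
    rw [← a3, ← hj3]
    ring)
  have : i = j := Nat.eq_of_mul_eq_mul_right (by omega) hj2
  rw [hj1, this]

/-- The pair of states determines the slope. -/
theorem Data.unique (hT : Lines A α0 α γ0 γ m) {i i' : ℕ} {p r : A.State}
    (H : Data A α0 α γ0 γ i p r) (H' : Data A α0 α γ0 γ i' p r) : i = i' := by
  obtain ⟨k, g, d, l, g', e, x1, x2, y1, y2, f, hg, hg', hd, he, hf, h1, h2, h3, h4, h5, h6⟩ := H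
  have hs := Data.slope hT hf h1 h2 h3 h4 h5 h6
  obtain ⟨k', b, d', l', b', e', z1, z2, w1, w2, f', hb, hb', hd', he', hf', h1', h2', h3', h4',
    h5', h6'⟩ := H'
  have hs' := Data.slope hT hf' h1' h2' h3' h4' h5' h6'
  -- `K` additional rounds of the own cycles, `n` rounds of the cycles of `H'`
  obtain ⟨K, hK⟩ : ∃ K, K = k' + l' := ⟨_, rfl⟩
  have hKg : K ≤ K * g' * g := by
    have : K * 1 ≤ K * (g' * g) := Nat.mul_le_mul_left _ (Nat.mul_pos hg' hg)
    rw [Nat.mul_assoc]
    omega
  obtain ⟨j, hj1, hj2⟩ := lin (m := m) (P := i * (x1 + d + x2 + 1 + K * (g' * d)))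
    (Q := i' * (b' * d')) (R := x1 + d + x2 + 1 + K * (g' * d)) (S := b' * d') (by
    intro n
    -- the computation
    have c1 := h1.trans' h2
    have c2 : A.Run p (k + g) (rep (K * g') (rep d α)) p (k + g + K * g' * g) :=
      (h2.shift g : A.Run p (k + g) (rep d α) p (k + g + g)).iter_up _
    have c3 : A.Run p (k + g + K * g' * g) (rep (n * b') (rep d' α)) p
        (k + g + K * g' * g + n * b' * b) := by
      have := h2'.shift (k + g + K * g' * g - k')
      rw [show k' + (k + g + K * g' * g - k') = k + g + K * g' * g by omega,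
        show k' + b + (k + g + K * g' * g - k') = k + g + K * g' * g + b by omega] at this
      exact this.iter_up _
    have c4 := h3.shift (K * g' * g + n * b' * b)
    rw [← Nat.add_assoc (k + g), show l + g' + (K * g' * g + n * b' * b) =
      (l + g' + K * g' * g) + n * b * b' by ring] at c4
    have c5 : A.Run r ((l + g' + K * g' * g) + n * b * b') (rep (n * b) (rep e' γ)) r
        (l + g' + K * g' * g) := by
      have := h4'.shift (l + g' + K * g' * g - l')
      rw [show l' + (l + g' + K * g' * g - l') = l + g' + K * g' * g by omega,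
        show l' + b' + (l + g' + K * g' * g - l') = l + g' + K * g' * g + b' by omega] at this
      exact this.iter_down _
    have c6 := h4.shift (K * g' * g)
    have c7 : A.Run r (l + K * g' * g) (rep (K * g) (rep e γ)) r l := by
      have := h4.iter_down (K * g)
      rwa [show l + K * g * g' = l + K * g' * g by ring] at this
    have r5 := c1.trans' (c2.trans' (c3.trans' (c4.trans' (c5.trans' (c6.trans'
      (c7.trans' h5))))))
    have e1 : α0 ++ rep x1 α ++ rep d α ++ (rep (K * g') (rep d α) ++ (rep (n * b') (rep d' α) ++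
        (rep x2 α ++ (γ0 ++ rep y1 γ) ++ (rep (n * b) (rep e' γ) ++ (rep e γ ++
          (rep (K * g) (rep e γ) ++ rep y2 γ)))))) =
        α0 ++ (rep (x1 + d + x2 + K * (g' * d) + n * (b' * d')) α ++
          (γ0 ++ rep (y1 + e + y2 + K * (g * e) + n * (b * e')) γ)) := by
      have a1 : x1 + d + x2 + K * (g' * d) + n * (b' * d') =
        x1 + (d + (K * g' * d + (n * b' * d' + x2))) := by ring
      have a2 : y1 + e + y2 + K * (g * e) + n * (b * e') =
        y1 + (n * b * e' + (e + (K * g * e + y2))) := by ring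
      rw [a1, a2]
      simp only [rep_add, rep_rep, List.append_assoc]
    rw [e1] at r5
    obtain ⟨j, hj1, hj2, hj3⟩ := (hT _ _).1 ⟨f, hf, r5⟩
    refine ⟨j, hj1, hj2, ?_⟩
    have a3 : x1 + d + x2 + 1 + K * (g' * d) + n * (b' * d') =
      x1 + d + x2 + K * (g' * d) + n * (b' * d') + 1 := by ring
    have a4 : i * (x1 + d + x2 + 1 + K * (g' * d)) = i * (x1 + d + x2 + 1) +
      K * (i * (g' * d)) := by ring
    rw [a3, ← hj3, a4, ← h6, ← hs, ← hs']
    ring)
  have hij : i = j := Nat.eq_of_mul_eq_mul_right (by omega) hj2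
  have hij' : i' = j := Nat.eq_of_mul_eq_mul_right (Nat.mul_pos hb' hd') hj1
  rw [hij, hij']

/-- The number of lines is at most the square of the number of states. -/
theorem Lines.card_le (hT : Lines A α0 α γ0 γ m) : m ≤ Nat.card A.State * Nat.card A.State := by
  have := A.finState
  have h : ∀ i : Fin m, ∃ q : A.State × A.State, Data A α0 α γ0 γ (i + 1) q.1 q.2 := by
    intro i
    obtain ⟨p, r, h⟩ := exists_data hT (i := i + 1) (by omega) (by omega)
    exact ⟨(p, r), h⟩
  choose q hq using h
  have hinj : Function.Injective q := by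
    intro i j hij
    have h1 := hq i
    rw [hij] at h1
    have := h1.unique hT (hq j)
    exact Fin.ext (by omega)
  have := Nat.card_le_card_of_injective _ hinj
  rwa [Nat.card_prod, Nat.card_eq_fintype_card, Fintype.card_fin] at this

end main

/-! ### Compositions of a-gsm's -/

namespace AGsm

variable {X Y Z : Type}

theorem run_append (M : AGsm X Y) (p : M.State) (u v : List X) :
    M.run p (u ++ v) = M.run (M.run p u) v := by
  induction u generalizing p with
  | nil => rfl
  | cons x u ih => exact ih _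

theorem output_append (M : AGsm X Y) (p : M.State) (u v : List X) :
    M.output p (u ++ v) = M.output p u ++ M.output (M.run p u) v := by
  induction u generalizing p with
  | nil => rfl
  | cons x u ih => simp [output, run, ih]

/-- The identity. -/
def id (X : Type) : AGsm X X where
  State := Unit
  finState := inferInstance
  init := ()
  next _ _ := ()
  out _ x := [x]
  accept := Set.univ

theorem id_output (u : List X) (p : Unit) : (id X).output p u = u := by
  induction u with
  | nil => rfl
  | cons x u ih => simp [output, id] at ih ⊢; exact ih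

/-- The composition. -/
def comp (M : AGsm X Y) (N : AGsm Y Z) : AGsm X Z where
  State := M.State × N.State
  finState := by
    have := M.finState
    have := N.finState
    infer_instance
  init := (M.init, N.init)
  next p x := (M.next p.1 x, N.run p.2 (M.out p.1 x))
  out p x := N.output p.2 (M.out p.1 x)
  accept := {p | p.1 ∈ M.accept ∧ p.2 ∈ N.accept}

theorem comp_run (M : AGsm X Y) (N : AGsm Y Z) (p : M.State) (q : N.State) (u : List X) :
    (M.comp N).run (p, q) u = (M.run p u, N.run q (M.output p u)) := by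
  induction u generalizing p q with
  | nil => rfl
  | cons x u ih =>
    have : (M.comp N).run (p, q) (x :: u) =
      (M.comp N).run (M.next p x, N.run q (M.out p x)) u := rfl
    rw [this, ih]
    simp only [run, output, run_append] <;> rfl

theorem comp_output (M : AGsm X Y) (N : AGsm Y Z) (p : M.State) (q : N.State) (u : List X) :
    (M.comp N).output (p, q) u = N.output q (M.output p u) := by
  induction u generalizing p q with
  | nil => rfl
  | cons x u ih =>
    have : (M.comp N).output (p, q) (x :: u) =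
      N.output q (M.out p x) ++ (M.comp N).output (M.next p x, N.run q (M.out p x)) u := rfl
    rw [this, ih]
    simp [output, output_append]

theorem comp_inv (M : AGsm X Y) (N : AGsm Y Z) (L : Language Z) :
    (M.comp N).inv L = M.inv (N.inv L) := by
  ext u
  change (M.comp N).run (M.init, N.init) u ∈ {p : M.State × N.State | p.1 ∈ M.accept ∧
      p.2 ∈ N.accept} ∧ (M.comp N).output (M.init, N.init) u ∈ L ↔
    M.run M.init u ∈ M.accept ∧ (N.run N.init (M.output M.init u) ∈ N.accept ∧
      N.output N.init (M.output M.init u) ∈ L)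
  rw [comp_run, comp_output]
  exact and_assoc

end AGsm

/-- `G(L)` consists of the inverse images of `L`. -/
theorem G_iff {X Y : Type} [Finite X] [Finite Y] (L : Language Y) (N : Language X)
    (h : G L X N) : ∃ M : AGsm X Y, M.inv L = N := by
  refine h (fun X _ N => ∃ M : AGsm X Y, M.inv L = N) ?_ ?_
  · rintro X Z _ _ M N ⟨M', rfl⟩
    exact ⟨M.comp M', M.comp_inv M' L⟩
  · refine ⟨AGsm.id Y, ?_⟩
    ext u
    change _ ∈ Set.univ ∧ (AGsm.id Y).output () u ∈ L ↔ _
    rw [AGsm.id_output]
    simp

/-! ### Idempotent iterates -/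

theorem exists_idem {S : Type} [Finite S] (f : S → S) :
    ∃ n, 0 < n ∧ ∀ c, 0 < c → f^[c * n] = f^[n] := by
  obtain ⟨a, b, hab, he⟩ := Finite.exists_ne_map_eq_of_infinite (fun n : ℕ => f^[n])
  wlog hlt : a < b generalizing a b
  · exact this b a hab.symm he.symm (by omega)
  obtain ⟨d, rfl⟩ : ∃ d, b = a + d := ⟨b - a, by omega⟩
  have hd : 0 < d := by omega
  have h1 : ∀ k, f^[a + k * d] = f^[a] := by
    intro k
    induction k with
    | zero => simp
    | succ k ih =>
      have : a + (k + 1) * d = k * d + (a + d) := by ring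
      rw [this, Function.iterate_add, ← he, ← Function.iterate_add, Nat.add_comm, ih]
  refine ⟨d * (a + 1), Nat.mul_pos hd (by omega), ?_⟩
  intro c hc
  have h2 : a ≤ d * (a + 1) := by
    have : 1 * (a + 1) ≤ d * (a + 1) := Nat.mul_le_mul_right _ hd
    omega
  obtain ⟨c', rfl⟩ : ∃ c', c = c' + 1 := ⟨c - 1, by omega⟩
  have h3 : (c' + 1) * (d * (a + 1)) = (d * (a + 1) - a) + (a + (c' * (a + 1)) * d) := by
    have : (c' * (a + 1)) * d = c' * (d * (a + 1)) := by ring
    rw [this, Nat.succ_mul]
    omega
  rw [h3, Function.iterate_add, h1, ← Function.iterate_add]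
  congr 1
  omega

/-! ### The languages -/

/-- The language `{a^n c^(i n) | n ≥ 0, 1 ≤ i ≤ m}`, with `a = false` and `c = true`. -/
def K (m : ℕ) : Language Bool :=
  {w | ∃ n i, 1 ≤ i ∧ i ≤ m ∧ w = List.replicate n false ++ List.replicate (i * n) true}

/-- The states of an automaton for `K m`: start, reading letters `a` (in the mode `i`), reading
letters `c`, and the end. -/
inductive St (m : ℕ)
  | start
  | up (i : Fin m)
  | down
  | fin

instance (m : ℕ) : Finite (St m) := by
  have : Function.Injective (fun s : St m => (match s with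
    | .start => (0, none)
    | .up i => (1, some i)
    | .down => (2, none)
    | .fin => (3, none) : Fin 4 × Option (Fin m))) := by
    intro s t h
    cases s <;> cases t <;> simp_all
  exact Finite.of_injective _ this

/-- The automaton for `K m`. -/
def autK (m : ℕ) : OneCounter Bool where
  State := St m
  finState := inferInstance
  init := .start
  trans := Set.range (fun i : Fin m => ((St.start, none, St.up i, 1) : St m × Option Bool × St m × ℕ)) ∪
    (Set.range (fun i : Fin m => (St.up i, some false, St.up i, i + 2)) ∪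
    (Set.range (fun i : Fin m => (St.up i, none, St.down, 1)) ∪
    {(St.down, some true, St.down, 0), (St.down, none, St.fin, 0)}))
  finTrans := (Set.finite_range _).union ((Set.finite_range _).union ((Set.finite_range _).union
    (Set.toFinite _)))
  accept := {.fin}

theorem mem_autK {m : ℕ} {t : St m × Option Bool × St m × ℕ} : t ∈ (autK m).trans ↔
    (∃ i : Fin m, (St.start, none, St.up i, 1) = t) ∨
    (∃ i : Fin m, (St.up i, some false, St.up i, i.val + 2) = t) ∨
    (∃ i : Fin m, (St.up i, none, St.down, 1) = t) ∨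
    t = (St.down, some true, St.down, 0) ∨ t = (St.down, none, St.fin, 0) := Iff.rfl

/-- What the automaton reads from a configuration until it accepts. -/
def Inv (m : ℕ) : St m → ℕ → List Bool → Prop
  | .fin, h, w => h = 0 ∧ w = []
  | .down, h, w => ∃ t, w = List.replicate t true ∧ h = t + 1
  | .up i, h, w => ∃ n t, w = List.replicate n false ++ List.replicate t true ∧
      h + (i.val + 1) * n = t + 1
  | .start, h, w => ∃ (i : Fin m) (n t : ℕ),
      w = List.replicate n false ++ List.replicate t true ∧ h + (i.val + 1) * n = t + 1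

theorem inv_of_run {m : ℕ} {q r : (autK m).State} {h k : ℕ} {w : List Bool}
    (h1 : (autK m).Run q h w r k) : r = St.fin → k = 0 → Inv m q h w := by
  induction h1 with
  | nil q h => rintro rfl rfl; exact ⟨rfl, rfl⟩
  | @read q p r x j h k w ht _ ih =>
    intro e1 e2
    have h2 := ih e1 e2
    rcases mem_autK.1 ht with ⟨i, h3⟩ | ⟨i, h3⟩ | ⟨i, h3⟩ | h3 | h3
    · cases h3
    · cases h3
      obtain ⟨n, t, rfl, h7⟩ := h2
      refine ⟨n + 1, t, by simp [List.replicate_succ], ?_⟩
      rw [← h7]; ring
    · cases h3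
    · cases h3
      obtain ⟨t, rfl, h7⟩ := h2
      exact ⟨t + 1, by simp [List.replicate_succ], by omega⟩
    · cases h3
  | @eps q p r j h k w ht _ ih =>
    intro e1 e2
    have h2 := ih e1 e2
    rcases mem_autK.1 ht with ⟨i, h3⟩ | ⟨i, h3⟩ | ⟨i, h3⟩ | h3 | h3
    · cases h3
      obtain ⟨n, t, rfl, h7⟩ := h2
      exact ⟨i, n, t, rfl, h7⟩
    · cases h3
    · cases h3
      obtain ⟨t, rfl, h7⟩ := h2
      exact ⟨0, t, by simp, by simpa using h7⟩
    · cases h3
    · cases h3
      obtain ⟨h7, rfl⟩ := h2
      exact ⟨0, rfl, by omega⟩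

theorem run_down {m : ℕ} (t h : ℕ) :
    (autK m).Run St.down (t + h + 1) (List.replicate t true) St.down (h + 1) := by
  induction t generalizing h with
  | zero =>
    rw [Nat.zero_add]
    exact OneCounter.Run.nil _ _
  | succ t ih =>
    rw [List.replicate_succ, show t + 1 + h + 1 = (t + h + 1) + 1 by ring]
    exact OneCounter.Run.read (A := autK m) (p := St.down) (j := 0)
      (mem_autK.2 (Or.inr (Or.inr (Or.inr (Or.inl rfl))))) (ih h)

theorem run_up {m : ℕ} (i : Fin m) (n h : ℕ) :
    (autK m).Run (St.up i) (h + 1) (List.replicate n false) (St.up i)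
      (h + (i.val + 1) * n + 1) := by
  induction n generalizing h with
  | zero => exact OneCounter.Run.nil _ _
  | succ n ih =>
    rw [List.replicate_succ]
    refine OneCounter.Run.read (A := autK m) (p := St.up i) (j := i.val + 2)
      (mem_autK.2 (Or.inr (Or.inl ⟨i, rfl⟩))) ?_
    have := ih (h + (i.val + 1))
    rwa [show h + (i.val + 1) + 1 = h + (i.val + 2) by ring,
      show h + (i.val + 1) + (i.val + 1) * n + 1 = h + (i.val + 1) * (n + 1) + 1 by ring] at this

theorem roc_K (m : ℕ) : Roc Bool (K m) := by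
  refine ⟨autK m, ?_⟩
  ext w
  constructor
  · rintro ⟨f, hf, h1⟩
    obtain ⟨i, n, t, h2, h3⟩ : Inv m St.start 1 w := inv_of_run h1 hf rfl
    refine ⟨n, i.val + 1, by omega, by omega, ?_⟩
    rw [h2, show (i.val + 1) * n = t by omega]
  · rintro ⟨n, i, hi, him, rfl⟩
    obtain ⟨i, rfl⟩ : ∃ i', i = i' + 1 := ⟨i - 1, by omega⟩
    refine ⟨St.fin, rfl, ?_⟩
    have r1 : (autK m).Run (St.up ⟨i, him⟩) 1 (List.replicate n false) (St.up ⟨i, him⟩)
        ((i + 1) * n + 1) := by
      have := run_up (m := m) ⟨i, him⟩ n 0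
      rwa [Nat.zero_add, Nat.zero_add] at this
    have r2 : (autK m).Run St.down ((i + 1) * n + 1) (List.replicate ((i + 1) * n) true)
        St.down 1 := run_down (m := m) ((i + 1) * n) 0
    have r3 : (autK m).Run St.down 1 [] St.fin 0 :=
      OneCounter.Run.eps (A := autK m) (p := St.fin) (h := 0) (j := 0)
        (mem_autK.2 (Or.inr (Or.inr (Or.inr (Or.inr rfl))))) (OneCounter.Run.nil _ _)
    have r4 : (autK m).Run (St.up ⟨i, him⟩) ((i + 1) * n + 1) [] St.down ((i + 1) * n + 1) :=
      OneCounter.Run.eps (A := autK m) (p := St.down) (h := (i + 1) * n) (j := 1)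
        (mem_autK.2 (Or.inr (Or.inr (Or.inl ⟨_, rfl⟩)))) (OneCounter.Run.nil _ _)
    have r0 : (autK m).Run St.start 1 [] (St.up ⟨i, him⟩) 1 :=
      OneCounter.Run.eps (A := autK m) (p := St.up ⟨i, him⟩) (h := 0) (j := 1)
        (mem_autK.2 (Or.inl ⟨_, rfl⟩)) (OneCounter.Run.nil _ _)
    have r5 := r0.trans' (r1.trans' (r4.trans' (r2.trans' r3)))
    rw [List.nil_append, List.nil_append, List.append_nil] at r5
    exact r5

theorem mem_K_iff {m n t : ℕ} :
    List.replicate n false ++ List.replicate t true ∈ K m ↔ ∃ i, 1 ≤ i ∧ i ≤ m ∧ t = i * n := by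
  constructor
  · rintro ⟨n', i, h1, h2, h3⟩
    have e1 := congrArg (List.count false) h3
    have e2 := congrArg (List.count true) h3
    simp [List.count_replicate] at e1 e2
    subst e1
    exact ⟨i, h1, h2, e2⟩
  · rintro ⟨i, h1, h2, rfl⟩
    exact ⟨n, i, h1, h2, rfl⟩

/-! ### Runs of an a-gsm on powers of letters -/

section powers

variable {Y : Type} (M : AGsm Bool Y)

theorem run_replicate (p : M.State) (b : Bool) (n : ℕ) :
    M.run p (List.replicate n b) = (fun p => M.next p b)^[n] p := by
  induction n generalizing p with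
  | zero => rfl
  | succ n ih => rw [List.replicate_succ, Function.iterate_succ_apply]; exact ih _

theorem output_loop {p : M.State} {b : Bool} {N : ℕ} (h : M.run p (List.replicate N b) = p)
    (x : ℕ) : M.output p (List.replicate (x * N) b) = rep x (M.output p (List.replicate N b)) ∧
      M.run p (List.replicate (x * N) b) = p := by
  induction x with
  | zero => simp [AGsm.output, AGsm.run]
  | succ x ih =>
    have e : List.replicate ((x + 1) * N) b = List.replicate N b ++ List.replicate (x * N) b := by
      rw [List.replicate_append_replicate]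
      congr 1
      ring
    rw [e, M.output_append, M.run_append, h, ih.1, ih.2, rep_succ]
    exact ⟨rfl, rfl⟩

end powers

/-- No language of `Roc` generates `Roc`: if `L` is accepted by an automaton with `s` states then
`K (s * s + 1)` is not in `G(L)`. -/
theorem not_G {Y : Type} [Finite Y] (A : OneCounter Y) (m : ℕ)
    (hm : Nat.card A.State * Nat.card A.State < m) : ¬ G A.language Bool (K m) := by
  intro hG
  obtain ⟨M, hM⟩ := G_iff _ _ hG
  have := M.finState
  obtain ⟨n1, hn1, h1⟩ := exists_idem (fun p => M.next p false)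
  obtain ⟨n2, hn2, h2⟩ := exists_idem (fun p => M.next p true)
  -- the common period
  obtain ⟨N, hN⟩ : ∃ N, N = n1 * n2 := ⟨_, rfl⟩
  have hNpos : 0 < N := hN ▸ Nat.mul_pos hn1 hn2
  have hidem : ∀ (b : Bool) (p : M.State),
      M.run (M.run p (List.replicate N b)) (List.replicate N b) =
        M.run p (List.replicate N b) := by
    intro b p
    rw [run_replicate, run_replicate, ← Function.iterate_add_apply]
    cases b with
    | false =>
      have e1 := h1 n2 hn2
      have e2 := h1 (n2 + n2) (by omega)
      rw [show N + N = (n2 + n2) * n1 by rw [hN]; ring, e2, show N = n2 * n1 by rw [hN]; ring, e1]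
    | true =>
      have e1 := h2 n1 hn1
      have e2 := h2 (n1 + n1) (by omega)
      rw [show N + N = (n1 + n1) * n2 by rw [hN]; ring, e2, hN, e1]
  obtain ⟨p, hp⟩ : ∃ p, p = M.run M.init (List.replicate N false) := ⟨_, rfl⟩
  obtain ⟨r, hr⟩ : ∃ r, r = M.run p (List.replicate N true) := ⟨_, rfl⟩
  have hpp : M.run p (List.replicate N false) = p := by rw [hp]; exact hidem _ _
  have hrr : M.run r (List.replicate N true) = r := by rw [hr]; exact hidem _ _
  -- the runs on the words of interest
  have hword : ∀ x y, List.replicate ((x + 1) * N) false ++ List.replicate ((y + 1) * N) true =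
      List.replicate N false ++ (List.replicate (x * N) false ++ (List.replicate N true ++
        List.replicate (y * N) true)) := by
    intro x y
    rw [Nat.succ_mul, Nat.succ_mul, Nat.add_comm (x * N), Nat.add_comm (y * N),
      ← List.replicate_append_replicate, ← List.replicate_append_replicate, List.append_assoc]
  have hrun : ∀ x y, M.run M.init (List.replicate ((x + 1) * N) false ++
      List.replicate ((y + 1) * N) true) = r := by
    intro x y
    rw [hword, M.run_append, ← hp, M.run_append, (output_loop M hpp x).2, M.run_append, ← hr,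
      (output_loop M hrr y).2]
  have hout : ∀ x y, M.output M.init (List.replicate ((x + 1) * N) false ++
      List.replicate ((y + 1) * N) true) = M.output M.init (List.replicate N false) ++
        (rep x (M.output p (List.replicate N false)) ++ (M.output p (List.replicate N true) ++
          rep y (M.output r (List.replicate N true)))) := by
    intro x y
    rw [hword, M.output_append, ← hp, M.output_append, (output_loop M hpp x).2,
      (output_loop M hpp x).1, M.output_append, ← hr, (output_loop M hrr y).1]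
  have hmem : ∀ x y, List.replicate ((x + 1) * N) false ++ List.replicate ((y + 1) * N) true ∈
      K m ↔ ∃ i, 1 ≤ i ∧ i ≤ m ∧ y + 1 = i * (x + 1) := by
    intro x y
    rw [mem_K_iff]
    refine exists_congr fun i => and_congr_right fun _ => and_congr_right fun _ => ?_
    rw [← Nat.mul_assoc]
    exact ⟨fun h => Nat.eq_of_mul_eq_mul_right hNpos h, fun h => by rw [h]⟩
  have hacc : r ∈ M.accept := by
    have h3 : List.replicate ((0 + 1) * N) false ++ List.replicate ((0 + 1) * N) true ∈ K m :=
      (hmem 0 0).2 ⟨1, le_rfl, by omega, rfl⟩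
    rw [← hM] at h3
    have h4 := h3.1
    rwa [hrun] at h4
  have hT : Lines A (M.output M.init (List.replicate N false))
      (M.output p (List.replicate N false)) (M.output p (List.replicate N true))
      (M.output r (List.replicate N true)) m := by
    intro x y
    rw [← hmem, ← hout, ← hM]
    constructor
    · intro h
      exact ⟨by rw [hrun]; exact hacc, h⟩
    · intro h
      exact h.2
  have := hT.card_le
  omega

/-- **The family of the restricted one-counter languages is not G-principal.** More precisely, for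
every language `L` of `Roc` there is a language of `Roc` outside `G(L)`; one can take the language
`K m = {a^n c^(i n) | n ≥ 0, 1 ≤ i ≤ m}` for a suitable `m`. -/
theorem result : ¬ GPrincipal Roc ∧
    ∀ (Y : Type) [Finite Y] (L : Language Y), Roc Y L →
      ∃ m : ℕ, Roc Bool (K m) ∧ ¬ G L Bool (K m) := by
  have h : ∀ (Y : Type) [Finite Y] (L : Language Y), Roc Y L →
      ∃ m : ℕ, Roc Bool (K m) ∧ ¬ G L Bool (K m) := by
    rintro Y _ L ⟨A, rfl⟩
    exact ⟨Nat.card A.State * Nat.card A.State + 1, roc_K _, not_G A _ (by omega)⟩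
  refine ⟨?_, h⟩
  rintro ⟨Y, _, L, hL, h1⟩
  obtain ⟨m, h2, h3⟩ := h Y L hL
  exact h3 ((h1 Bool _).1 h2)

end Pool.Agent.Results.MP_773080_lc.RocNotGPrincipal
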